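import Pool.Agent.W518.PR.Stm

set_option autoImplicit false

/-!
Part ACY: the sections of the bundle of 3-forms in degree 0 are acyclic.
-/
set_option maxHeartbeats 1000000

namespace Pool.Agent.W73.PRAcy

open Pool.Agent.H907R3 Pool.Agent.W518.PR ExteriorAlgebra

/-! ### coefficients -/

lemma V_neg {d : ℤ} (hd : d < 0) {f : K} (hf : f ∈ V ∅ {d}) : f = 0 := by
  refine V_induction (fun f => f = 0) ?_ rfl ?_ ?_ hf
  · rintro ⟨a, e⟩ ⟨h1, h2⟩
    exfalso
    have h3 : ∑ k, a k + ((e : ℕ) : ℤ) = d := h2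
    have h4 : 0 ≤ ∑ k, a k := Finset.sum_nonneg fun k _ => h1 k (Finset.notMem_empty k)
    omega
  · rintro f g rfl rfl; exact add_zero _
  · rintro c f rfl; exact smul_zero _

lemma T_neg {p : ℕ} {d : ℤ} (hd : d < 0) {ω : Lam} (hω : ω ∈ T p ∅ {d}) : ω = 0 := by
  have h := T_map (AddMonoidHom.id Lam) ⊥ (fun f hf k => by
    rw [V_neg hd hf, zero_smul]; exact AddSubgroup.zero_mem _) hω
  exact h

lemma V_zero {f : K} (hf : f ∈ V ∅ {0}) : ∃ c : ℂ, f = algebraMap ℂ K c := by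
  refine V_induction (fun f => ∃ c : ℂ, f = algebraMap ℂ K c) ?_ ⟨0, (map_zero _).symm⟩ ?_ ?_ hf
  · rintro ⟨a, e⟩ ⟨h1, h2⟩
    have h3 : ∑ k, a k + ((e : ℕ) : ℤ) = 0 := h2
    have h4 : 0 ≤ ∑ k, a k := Finset.sum_nonneg fun k _ => h1 k (Finset.notMem_empty k)
    have h5 : ∑ k, a k = 0 := by omega
    have h6 : ∀ k, a k = 0 := fun k => (Finset.sum_eq_zero_iff_of_nonneg
      (fun k _ => h1 k (Finset.notMem_empty k))).1 h5 k (Finset.mem_univ k)
    have ha : a = 0 := funext h6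
    have he : e = 0 := by
      apply Fin.ext
      show (e : ℕ) = 0
      omega
    subst ha he
    exact ⟨1, by rw [map_one]; exact mon_zero⟩
  · rintro f g ⟨c, rfl⟩ ⟨c', rfl⟩; exact ⟨c + c', (map_add _ _ _).symm⟩
  · rintro c f ⟨c', rfl⟩; exact ⟨c * c', by rw [map_mul, Algebra.smul_def]⟩

lemma alg_mem (c : ℂ) : algebraMap ℂ K c ∈ V ∅ {0} := by
  rw [Algebra.algebraMap_eq_smul_one]
  exact Submodule.smul_mem _ _ (one_mem_V rfl)

lemma V_one (p : K → Prop) (hg : ∀ l, p (grad l)) (h0 : p 0) (ha : ∀ f g, p f → p g → p (f + g))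
    (hs : ∀ (c : ℂ) f, p f → p (c • f)) {f : K} (hf : f ∈ V ∅ {1}) : p f := by
  refine V_induction p ?_ h0 ha hs hf
  rintro ⟨a, e⟩ ⟨h1, h2⟩
  have h1' : ∀ k, 0 ≤ a k := fun k => h1 k (Finset.notMem_empty k)
  have h3 : ∑ k, a k + ((e : ℕ) : ℤ) = 1 := h2
  have h4 : 0 ≤ ∑ k, a k := Finset.sum_nonneg fun k _ => h1' k
  by_cases he : (e : ℕ) = 0
  · have h5 : ∑ k, a k = 1 := by omega
    obtain ⟨k, hk⟩ : ∃ k, 0 < a k := by
      by_contra hc
      push Not at hc
      have : ∑ k, a k ≤ 0 := Finset.sum_nonpos fun k _ => hc k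
      omega
    have h6 : a k + ∑ j ∈ Finset.univ.erase k, a j = ∑ j, a j :=
      Finset.add_sum_erase _ _ (Finset.mem_univ k)
    have h7 : 0 ≤ ∑ j ∈ Finset.univ.erase k, a j := Finset.sum_nonneg fun k _ => h1' k
    have h8 : ∑ j ∈ Finset.univ.erase k, a j = 0 := by omega
    have h9 := (Finset.sum_eq_zero_iff_of_nonneg (fun k _ => h1' k)).1 h8
    have ha : a = Pi.single k 1 := by
      funext j
      by_cases hj : j = k
      · subst hj
        rw [Pi.single_eq_same]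
        omega
      · rw [Pi.single_eq_of_ne hj]
        exact h9 j (Finset.mem_erase.2 ⟨hj, Finset.mem_univ j⟩)
    have he' : e = 0 := Fin.ext he
    subst he' ha
    have h10 : nf (Pi.single k 1, 0) = grad (par k).castSucc := by
      rw [grad_castSucc, par_par]
      show mon (Pi.single k 1) 0 = x k
      rw [mon_single, zpow_one]
    rw [h10]
    exact hg _
  · have h5 : (e : ℕ) = 1 := by omega
    have h6 : ∑ k, a k = 0 := by omega
    have ha : a = 0 := funext fun k => (Finset.sum_eq_zero_iff_of_nonneg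
      (fun k _ => h1' k)).1 h6 k (Finset.mem_univ k)
    have he' : e = 1 := Fin.ext h5
    subst he' ha
    have h10 : nf (0, 1) = (1 / 2 : ℂ) • grad (Fin.last 6) := by
      rw [grad_last, smul_smul]
      norm_num
      exact mon_z
    rw [h10]
    exact hs _ _ (hg _)

/-! ### top degree -/

lemma gr_eM7 (k : Fin 7 → Fin 7) : gr * (eM 7 k : Lam) = 0 := by
  rw [gr_eq, Finset.sum_mul]
  apply Finset.sum_eq_zero
  intro l _
  rw [smul_mul_assoc, eM_cons]
  have h : (eM (7 + 1) (Fin.cons l k : Fin (7 + 1) → Fin 7) : Lam) = 0 := by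
    rw [eM]
    apply ExteriorAlgebra.ιMulti_eq_zero_of_not_inj
    intro hinj
    have h1 : Function.Injective (Fin.cons l k : Fin (7 + 1) → Fin 7) := by
      intro a b hab
      apply hinj
      simp only [hab]
    have h2 := Fintype.card_le_of_injective _ h1
    simp at h2
  rw [h, smul_zero]

lemma gr_T7 {I : Finset (Fin 6)} {Γ : Set ℤ} {ω : Lam} (hω : ω ∈ T 7 I Γ) : gr * ω = 0 := by
  refine T_eq (AddMonoidHom.mulLeft gr) 0 (fun f _ k => ?_) hω
  show gr * (f • eM 7 k) = 0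
  rw [mul_smul_comm, gr_eM7, smul_zero]

/-! ### contraction with a coordinate -/

/-- contraction with the coordinate `l` -/
noncomputable def cp (l : Fin 7) : Lam →ₗ[K] Lam := ctrG (LinearMap.proj l)

lemma cp_mul (l m : Fin 7) (ω : Lam) : cp l (ι K (Pi.single m 1) * ω) =
    (if l = m then (1 : K) else 0) • ω - ι K (Pi.single m 1) * cp l ω := by
  rw [cp, ctrG_mul, LinearMap.proj_apply, Pi.single_apply]

lemma cp_gr (l : Fin 7) (ω : Lam) : cp l (gr * ω) = grad l • ω - gr * cp l ω := by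
  rw [cp, gr, ctrG_mul, LinearMap.proj_apply]

lemma cp_one (l : Fin 7) : cp l (1 : Lam) = 0 := ctrG_one _

lemma one_or_zero {p : Prop} [Decidable p] {I : Finset (Fin 6)} {Γ : Set ℤ} {f : K}
    (hf : f ∈ V I Γ) : (f * (if p then (1 : K) else 0)) ∈ V I Γ := by
  split_ifs
  · rw [mul_one]; exact hf
  · rw [mul_zero]; exact Submodule.zero_mem _

lemma cp_mem (l : Fin 7) {p : ℕ} {I : Finset (Fin 6)} {Γ : Set ℤ} {ω : Lam}
    (hω : ω ∈ T (p + 1) I Γ) : cp l ω ∈ T p I Γ := by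
  induction p generalizing ω with
  | zero =>
    refine T_map (cp l).toAddMonoidHom _ (fun f hf k => ?_) hω
    change cp l (f • eM 1 k) ∈ _
    rw [map_smul, eM_succ, cp_mul, eM_zero, cp_one, mul_zero, sub_zero, smul_smul,
      ← eM_zero (fun a => Fin.elim0 a)]
    exact gen_mem (one_or_zero hf) _
  | succ p ih =>
    refine T_map (cp l).toAddMonoidHom _ (fun f hf k => ?_) hω
    change cp l (f • eM (p + 2) k) ∈ _
    rw [eM_succ, map_smul, cp_mul, smul_sub, smul_smul, ← mul_smul_comm, ← map_smul]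
    refine AddSubgroup.sub_mem _ (gen_mem (one_or_zero hf) _) (mul_mem_T _ (ih (gen_mem hf _)))

lemma cp_eM {l : Fin 7} {p : ℕ} {k : Fin p → Fin 7} (hk : ∀ a, k a ≠ l) :
    cp l (eM p k) = 0 := by
  induction p with
  | zero => rw [eM_zero, cp_one]
  | succ p ih =>
    rw [eM_succ, cp_mul, if_neg (fun h => hk 0 h.symm), zero_smul, ih (k := Fin.tail k) (fun a => hk a.succ),
      mul_zero, sub_zero]

lemma gr_cp (l : Fin 7) (k : Fin 7 → Fin 7) :
    gr * cp l (eM 7 k : Lam) = grad l • (eM 7 k : Lam) := by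
  have h := cp_gr l (eM 7 k)
  rw [gr_eM7, map_zero] at h
  exact (sub_eq_zero.1 h.symm).symm

lemma smul_T {p : ℕ} (c : ℂ) {I : Finset (Fin 6)} {Γ : Set ℤ} {ω : Lam} (hω : ω ∈ T p I Γ) :
    algebraMap ℂ K c • ω ∈ T p I Γ := by
  refine T_smul (Γ₁ := {0}) ?_ (V_mono (Finset.empty_subset I) (Set.Subset.refl _) (alg_mem c)) hω
  rintro a rfl b hb
  rw [zero_add]
  exact hb

lemma surj67 {ω : Lam} (hω : ω ∈ T 7 ∅ {1}) : ∃ t ∈ T 6 ∅ {0}, gr * t = ω := by
  have h : ω ∈ (T 6 ∅ {0}).map (AddMonoidHom.mulLeft gr) := by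
    refine T_map (AddMonoidHom.id Lam) ((T 6 ∅ {0}).map (AddMonoidHom.mulLeft gr))
      (fun f hf k => ?_) hω
    refine V_one (fun f => (AddMonoidHom.id Lam) (f • eM 7 k) ∈
      (T 6 ∅ {0}).map (AddMonoidHom.mulLeft gr)) ?_ ?_ ?_ ?_ hf
    · intro l
      refine ⟨cp l (eM 7 k), cp_mem l ?_, gr_cp l k⟩
      have h := gen_mem (p := 7) (I := ∅) (Γ := {0}) (one_mem_V rfl) k
      rw [one_smul] at h
      exact h
    · rw [zero_smul, map_zero]; exact AddSubgroup.zero_mem _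
    · intro f g hf hg
      rw [add_smul, map_add]
      exact AddSubgroup.add_mem _ hf hg
    · rintro c f ⟨t, ht, h⟩
      refine ⟨algebraMap ℂ K c • t, smul_T c ht, ?_⟩
      have h' : gr * t = f • eM 7 k := h
      show gr * (algebraMap ℂ K c • t) = (c • f) • eM 7 k
      have h2 : c • f = algebraMap ℂ K c * f := Algebra.smul_def c f
      rw [mul_smul_comm, h', smul_smul, h2]
  obtain ⟨t, ht, h⟩ := h
  exact ⟨t, ht, h⟩

/-! ### injectivity in degree six -/

lemma eM7_perm (σ : Equiv.Perm (Fin 7)) : (eM 7 σ : Lam) = Equiv.Perm.sign σ • dV := by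
  have h := (ExteriorAlgebra.ιMulti K 7 (M := Fin 7 → K)).map_perm
    (fun a => (Pi.single a 1 : Fin 7 → K)) σ
  exact h

/-- the combinations of the contractions of the volume form with constant coefficients -/
noncomputable def W6 : AddSubgroup Lam where
  carrier := {ω | ∃ c : Fin 7 → ℂ, ω = ∑ l, algebraMap ℂ K (c l) • cp l dV}
  zero_mem' := ⟨0, by simp⟩
  add_mem' := by
    rintro a b ⟨c, rfl⟩ ⟨c', rfl⟩
    exact ⟨c + c', by simp only [Pi.add_apply, map_add, add_smul, Finset.sum_add_distrib]⟩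
  neg_mem' := by
    rintro a ⟨c, rfl⟩
    exact ⟨-c, by simp only [Pi.neg_apply, map_neg, neg_smul, Finset.sum_neg_distrib]⟩

lemma cp_mem_W6 (l : Fin 7) : cp l dV ∈ W6 := by
  refine ⟨Pi.single l 1, ?_⟩
  rw [Finset.sum_eq_single l]
  · rw [Pi.single_eq_same, map_one, one_smul]
  · intro j _ hj
    rw [Pi.single_eq_of_ne hj, map_zero, zero_smul]
  · simp

lemma eM6_mem (k : Fin 6 → Fin 7) : (eM 6 k : Lam) ∈ W6 := by
  by_cases hk : Function.Injective k
  · obtain ⟨l, hl⟩ : ∃ l, ∀ a, k a ≠ l := by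
      by_contra hc
      push Not at hc
      have h2 := Fintype.card_le_of_surjective k hc
      simp at h2
    have hinj : Function.Injective (Fin.cons l k : Fin 7 → Fin 7) := by
      rw [Fin.cons_injective_iff]
      exact ⟨fun ⟨a, ha⟩ => hl a ha, hk⟩
    have hbij : Function.Bijective (Fin.cons l k : Fin 7 → Fin 7) :=
      Finite.injective_iff_bijective.1 hinj
    have h1 : cp l (eM 7 (Fin.cons l k)) = (eM 6 k : Lam) := by
      have h2 : (eM 7 (Fin.cons l k) : Lam) = ι K (Pi.single l 1) * eM 6 k :=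
        (eM_cons 6 l k).symm
      rw [h2, cp_mul, if_pos rfl, one_smul, cp_eM hl, mul_zero, sub_zero]
    have h3 := eM7_perm (Equiv.ofBijective _ hbij)
    have h4 : (eM 7 (Fin.cons l k) : Lam) = Equiv.Perm.sign (Equiv.ofBijective _ hbij) • dV := h3
    rw [← h1, h4]
    rcases Int.units_eq_one_or (Equiv.Perm.sign (Equiv.ofBijective _ hbij)) with h | h
    · rw [h, one_smul]; exact cp_mem_W6 l
    · rw [h, Units.neg_smul, one_smul, map_neg]; exact AddSubgroup.neg_mem _ (cp_mem_W6 l)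
  · have h1 : (eM 6 k : Lam) = 0 := by
      rw [eM]
      apply ExteriorAlgebra.ιMulti_eq_zero_of_not_inj
      intro hinj
      apply hk
      intro a b hab
      apply hinj
      simp only [hab]
    rw [h1]
    exact AddSubgroup.zero_mem _

lemma T6_mem {ω : Lam} (hω : ω ∈ T 6 ∅ {0}) : ω ∈ W6 := by
  refine T_map (AddMonoidHom.id Lam) W6 (fun f hf k => ?_) hω
  obtain ⟨c, rfl⟩ := V_zero hf
  obtain ⟨c', h⟩ := eM6_mem k
  refine ⟨fun l => c * c' l, ?_⟩
  show algebraMap ℂ K c • (eM 6 k : Lam) = _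
  rw [h, Finset.smul_sum]
  refine Finset.sum_congr rfl fun l _ => ?_
  rw [smul_smul, map_mul]

lemma li_grad (c : Fin 7 → ℂ) (h : ∑ l, algebraMap ℂ K (c l) * grad l = 0) : c = 0 := by
  rw [Fin.sum_univ_castSucc] at h
  simp only [grad_castSucc] at h
  have h1 : grad (Fin.last 6) = 2 * z := rfl
  rw [h1] at h
  have h2 := zpart (∑ i : Fin 6, MvPolynomial.C (c i.castSucc) * MvPolynomial.X (par i))
    (MvPolynomial.C (2 * c (Fin.last 6))) (by
      rw [← h, map_sum, MvPolynomial.aeval_C, map_mul, map_ofNat]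
      simp only [map_mul, MvPolynomial.aeval_C, MvPolynomial.aeval_X]
      ring)
  funext l
  refine Fin.lastCases ?_ (fun i => ?_) l
  · have h3 := MvPolynomial.C_eq_zero.1 h2.2
    rcases mul_eq_zero.1 h3 with h4 | h4
    · norm_num at h4
    · exact h4
  · have h3 := congrArg (MvPolynomial.eval (Pi.single (par i) (1 : ℂ))) h2.1
    rw [map_sum, map_zero, Finset.sum_eq_single i] at h3
    · rw [map_mul, MvPolynomial.eval_C, MvPolynomial.eval_X, Pi.single_eq_same, mul_one] at h3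
      exact h3
    · intro j _ hj
      rw [map_mul, MvPolynomial.eval_C, MvPolynomial.eval_X, Pi.single_eq_of_ne, mul_zero]
      intro he
      apply hj
      rw [← par_par j, he, par_par]
    · simp

lemma inj67 {ω : Lam} (hω : ω ∈ T 6 ∅ {0}) (h : gr * ω = 0) : ω = 0 := by
  obtain ⟨c, rfl⟩ := T6_mem hω
  have h1 : gr * ∑ l, algebraMap ℂ K (c l) • cp l dV =
      (∑ l, algebraMap ℂ K (c l) * grad l) • dV := by
    rw [Finset.mul_sum, Finset.sum_smul]
    refine Finset.sum_congr rfl fun l _ => ?_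
    have h2 : gr * cp l dV = grad l • dV := gr_cp l id
    rw [mul_smul_comm, h2, smul_smul]
  rw [h1] at h
  rcases smul_eq_zero.1 h with h2 | h2
  · have h3 := li_grad c h2
    subst h3
    simp
  · exact absurd h2 dV_ne

/-! ### the step -/

lemma surj_ne {q : ℕ} {d : ℤ} {I : Finset (Fin 6)} (hI : I.Nonempty) {w : Lam}
    (hw : w ∈ Z (q + 1) I {d + 1}) : ∃ t ∈ T q I {d}, gr * t = w := by
  obtain ⟨i, hi⟩ := hI
  rw [mem_Z] at hw
  refine ⟨ctr i w, ctr_mem (by rw [Finset.insert_eq_of_mem hi]) ?_ hw.1, ?_⟩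
  · rintro a rfl
    show d + 1 - 1 = d
    ring
  · rw [gr_ctr, hw.2, map_zero, sub_zero]

lemma step (q : ℕ) (d : ℤ) (hT : ∀ n, HV (fun I => T q I {d}) n)
    (hZ : ∀ n, HV (fun I => Z (q + 1) I {d + 1}) n)
    (hs : ∀ w ∈ Z (q + 1) ∅ {d + 1}, ∃ t ∈ T q ∅ {d}, gr * t = w) (n : ℕ) :
    HV (fun I => Z q I {d}) n := by
  have hs' : ∀ I, ∀ w ∈ Z (q + 1) I {d + 1}, ∃ t ∈ T q I {d}, gr * t = w := by
    intro I w hw
    rcases Finset.eq_empty_or_nonempty I with rfl | hI
    · exact hs w hw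
    · exact surj_ne hI hw
  intro c hc hdc
  obtain ⟨t, ht, htc⟩ := hT n c (fun k => (mem_Z.1 (hc k)).1) hdc
  cases n with
  | zero =>
    refine ⟨t, fun k => mem_Z.2 ⟨ht k, ?_⟩, htc⟩
    have h1 : dd t (Fin.cons 0 k : Fin 1 → Fin 6) = t k := by
      simp only [dd, Fin.sum_univ_succ, Fin.sum_univ_zero]
      rw [cons_face_zero]
      simp
    rw [← h1, htc]
    exact (mem_Z.1 (hc _)).2
  | succ n =>
    have hgt : dd (fun k => gr * t k) = 0 := by
      have h1 := dd_map (AddMonoidHom.mulLeft gr) t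
      rw [htc] at h1
      refine h1.trans ?_
      funext k
      exact (mem_Z.1 (hc k)).2
    obtain ⟨u, hu, huc⟩ := hZ n (fun k => gr * t k) (fun k => mem_Z.2 ⟨gr_mem (by
      rintro a rfl; rfl) (ht k), gr_gr _⟩) hgt
    choose v hv hvu using fun k => hs' _ (u k) (hu k)
    have hdv : dd (fun k => gr * v k) = fun k => gr * dd v k :=
      dd_map (AddMonoidHom.mulLeft gr) v
    have hvu' : (fun k => gr * v k) = u := funext hvu
    rw [hvu', huc] at hdv
    refine ⟨t - dd v, fun k => mem_Z.2 ⟨?_, ?_⟩, ?_⟩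
    · refine AddSubgroup.sub_mem _ (ht k) (AddSubgroup.sum_mem _ fun j _ =>
        AddSubgroup.zsmul_mem _ (T_mono (img_face k j) (Set.Subset.refl _) (hv _)) _)
    · have h2 : gr * t k = gr * dd v k := congrFun hdv k
      rw [Pi.sub_apply, mul_sub, h2, sub_self]
    · rw [dd_sub, htc, dd_dd, sub_zero]

theorem main : S_acy := by
  have h7 : ∀ n, HV (fun I => Z 7 I {(0 : ℤ) + 1}) n := by
    intro n c hc hdc
    obtain ⟨b, hb, h⟩ := HV_T 7 (Γ := {(0 : ℤ) + 1}) (by rintro d rfl; norm_num) n c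
      (fun k => (mem_Z.1 (hc k)).1) hdc
    exact ⟨b, fun k => mem_Z.2 ⟨hb k, gr_T7 (hb k)⟩, h⟩
  have h6 : ∀ n, HV (fun I => Z 6 I {(-1 : ℤ) + 1}) n := by
    have h := step 6 0 (HV_T 6 (Γ := {(0 : ℤ)}) (by rintro d rfl; norm_num)) h7 (by
      intro w hw
      exact surj67 (by simpa using (mem_Z.1 hw).1))
    simpa using h
  have h5 : ∀ n, HV (fun I => Z 5 I {(-2 : ℤ) + 1}) n := by
    have h := step 5 (-1) (HV_T 5 (Γ := {(-1 : ℤ)}) (by rintro d rfl; norm_num)) h6 (by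
      intro w hw
      have h1 := mem_Z.1 hw
      refine ⟨0, AddSubgroup.zero_mem _, ?_⟩
      rw [mul_zero]
      exact (inj67 (by simpa using h1.1) h1.2).symm)
    exact h
  refine ⟨step 4 (-2) (HV_T 4 (Γ := {(-2 : ℤ)}) (by rintro d rfl; norm_num)) h5 ?_, ?_⟩
  · intro w hw
    have h1 := mem_Z.1 hw
    refine ⟨0, AddSubgroup.zero_mem _, ?_⟩
    rw [mul_zero]
    exact (T_neg (by norm_num) h1.1).symm
  · rw [eq_bot_iff]
    intro w hw
    exact T_neg (by norm_num) (mem_Z.1 hw).1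

end Pool.Agent.W73.PRAcy
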